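import Pool.Agent.Q119.Clo.Final

set_option autoImplicit false

/-!
Between finite modules of coprime order there are only finitely many clonoids.
-/

namespace Pool.Agent.Results.MP_d8c2c9_al.CoprimeFinite

open Pool.Agent.Q119.Clo

universe u v w z

/-- A clonoid from the `R`-module `A` to the `S`-module `B`. The set `carrier n` consists of its
members of arity `n + 1` (so the arities are the positive integers). -/
@[ext]
structure Clonoid (R : Type u) (S : Type v) (A : Type w) (B : Type z) [Ring R] [Ring S]
    [AddCommGroup A] [AddCommGroup B] [Module R A] [Module S B] where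
  /-- The members of arity `n + 1`. -/
  carrier : ∀ n : ℕ, Set ((Fin (n + 1) → A) → B)
  /-- Permuting and identifying variables and adding dummy variables. -/
  comp_var : ∀ (n k : ℕ) (f : (Fin (n + 1) → A) → B) (s : Fin (n + 1) → Fin (k + 1)),
    f ∈ carrier n → (fun x : Fin (k + 1) → A => f (fun i => x (s i))) ∈ carrier k
  /-- Composing with term operations of `A`. -/
  comp_inner : ∀ (n k : ℕ) (f : (Fin (n + 1) → A) → B) (r : Fin (n + 1) → Fin (k + 1) → R),
    f ∈ carrier n → (fun x : Fin (k + 1) → A => f (fun i => ∑ j, r i j • x j)) ∈ carrier k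
  /-- Composing with term operations of `B`. -/
  comp_outer : ∀ (m k : ℕ) (s : Fin (m + 1) → S) (f : Fin (m + 1) → (Fin (k + 1) → A) → B),
    (∀ i, f i ∈ carrier k) → (fun x : Fin (k + 1) → A => ∑ i, s i • f i x) ∈ carrier k

section

variable {R : Type u} {S : Type v} {A : Type w} {B : Type z} [Ring R] [Ring S]
    [AddCommGroup A] [AddCommGroup B] [Module R A] [Module S B]

theorem Clonoid.add_mem (C : Clonoid R S A B) {k : ℕ} {f g : (Fin (k + 1) → A) → B}
    (hf : f ∈ C.carrier k) (hg : g ∈ C.carrier k) : f + g ∈ C.carrier k := by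
  have h := C.comp_outer 1 k ![1, 1] ![f, g] (by
    intro i
    fin_cases i
    · exact hf
    · exact hg)
  have h2 : (fun x : Fin (k + 1) → A => ∑ i, (![1, 1] : Fin 2 → S) i • (![f, g] : Fin 2 → _) i x)
      = f + g := by
    funext x
    simp [Fin.sum_univ_two]
  rwa [h2] at h

theorem Clonoid.smul_mem (C : Clonoid R S A B) {k : ℕ} (s : S) {f : (Fin (k + 1) → A) → B}
    (hf : f ∈ C.carrier k) : s • f ∈ C.carrier k := by
  have h := C.comp_outer 0 k (fun _ => s) (fun _ => f) (fun _ => hf)
  have h2 : (fun x : Fin (k + 1) → A => ∑ _i : Fin 1, s • f x) = s • f := by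
    funext x
    simp
  rwa [h2] at h

/-- The family of subgroups spanned by a clonoid. -/
def Clonoid.fam (C : Clonoid R S A B) : Fam A B :=
  ⟨fun n =>
    { carrier := {f | f = 0 ∨ f ∈ C.carrier n}
      zero_mem' := Or.inl rfl
      add_mem' := by
        rintro f g (rfl | hf) (rfl | hg)
        · left; simp
        · right; simpa using hg
        · right; simpa using hf
        · exact Or.inr (C.add_mem hf hg)
      neg_mem' := by
        rintro f (rfl | hf)
        · left; simp
        · right
          have := C.smul_mem (-1) hf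
          simpa using this },
    by
      rintro m n M f (rfl | hf)
      · exact Or.inl rfl
      · right
        have := C.comp_inner n m f (fun i j => ((M i j : ℤ) : R)) hf
        have h2 : (fun x : Fin (m + 1) → A => f (fun i => ∑ j, ((M i j : ℤ) : R) • x j))
            = subst M f := by
          funext x
          unfold subst
          congr 1
          funext i
          simp [Int.cast_smul_eq_zsmul]
        rw [h2] at this
        exact this⟩

theorem Clonoid.mem_fam (C : Clonoid R S A B) {n : ℕ} (f : (Fin (n + 1) → A) → B) :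
    f ∈ C.fam.1 n ↔ f = 0 ∨ f ∈ C.carrier n := Iff.rfl

theorem Clonoid.zero_mem (C : Clonoid R S A B) {k : ℕ} {f : (Fin (k + 1) → A) → B}
    (hf : f ∈ C.carrier k) (n : ℕ) : (0 : (Fin (n + 1) → A) → B) ∈ C.carrier n := by
  have h1 := C.comp_var k n f (fun _ => 0) hf
  have h2 := C.smul_mem 0 h1
  simpa using h2

theorem exists_level (A : Type w) (B : Type z) [AddCommGroup A] [AddCommGroup B]
    [Finite A] [Finite B] (h : (Nat.card A).Coprime (Nat.card B)) :
    ∃ k : ℕ, ∀ (R : Type u) (S : Type v) [Ring R] [Ring S] [Module R A] [Module S B]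
      (C D : Clonoid R S A B),
      C.carrier k ⊆ D.carrier k → ∀ n, C.carrier n ⊆ D.carrier n := by
  obtain ⟨k, hk⟩ := exists_arity A B h
  refine ⟨k, fun R S _ _ _ _ C D hCD n f hf => ?_⟩
  have h1 : C.fam ≤ D.fam := by
    apply hk
    intro g hg
    rcases (C.mem_fam g).1 hg with rfl | hg
    · exact (D.mem_fam _).2 (Or.inl rfl)
    · exact (D.mem_fam _).2 (Or.inr (hCD hg))
  rcases (D.mem_fam f).1 (h1 n ((C.mem_fam f).2 (Or.inr hf))) with rfl | hf'
  · exact D.zero_mem (hCD (C.zero_mem hf k)) n
  · exact hf'

end

/-- Between finite modules of coprime order there are only finitely many clonoids, and they are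
determined by their members of one arity. -/
theorem result (R : Type u) (S : Type v) (A : Type w) (B : Type z) [Ring R] [Ring S]
    [AddCommGroup A] [AddCommGroup B] [Module R A] [Module S B] [Finite A] [Finite B]
    (h : (Nat.card A).Coprime (Nat.card B)) :
    Finite (Clonoid R S A B) ∧
      ∃ k : ℕ, ∀ C D : Clonoid R S A B,
        C.carrier k ⊆ D.carrier k → ∀ n, C.carrier n ⊆ D.carrier n := by
  obtain ⟨k, hk⟩ := exists_level.{u, v, w, z} A B h
  refine ⟨?_, k, fun C D => hk R S C D⟩
  apply Finite.of_injective (fun C : Clonoid R S A B => C.carrier k)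
  intro C D hCD
  have hCD' : C.carrier k = D.carrier k := hCD
  apply Clonoid.ext
  funext n
  exact Set.Subset.antisymm (hk R S C D hCD'.subset n) (hk R S D C hCD'.symm.subset n)

end Pool.Agent.Results.MP_d8c2c9_al.CoprimeFinite
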